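import Pool.Agent.Helper86.LN.Fin

/-!
Component coordinates of the multiples at an archimedean place: the error grows linearly in `m`
(double and add) instead of exponentially.
-/

open Height AdmissibleAbsValues Filter Topology

namespace Pool.Agent.Helper86.LP

open WeierstrassCurve WeierstrassCurve.Affine WeierstrassCurve.Affine.Point NumberField
open Pool.Agent.Helper86.LH Pool.Agent.Helper86.LK Pool.Agent.Helper86.LM
open Pool.Agent.Helper86.LN

/-- The right side of the law. -/
noncomputable def FF (a b : ℝ) : ℝ := |a - b| + min (a + b) (1 - (a + b))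

theorem FF_eq (a b : ℝ) : FF a b = min (2 * max a b) (1 - 2 * min a b) := by
  unfold FF
  rcases le_total a b with h | h
  · rw [abs_of_nonpos (by linarith), max_eq_right h, min_eq_left h, ← min_add_add_left]
    congr 1 <;> ring
  · rw [abs_of_nonneg (by linarith), max_eq_left h, min_eq_right h, ← min_add_add_left]
    congr 1 <;> ring

theorem FF_lip {x y x' y' e : ℝ} (hx : |x - x'| ≤ e) (hy : |y - y'| ≤ e) :
    |FF x y - FF x' y'| ≤ 2 * e := by
  rw [FF_eq, FF_eq]
  refine (abs_min_sub_min_le_max _ _ _ _).trans (max_le ?_ ?_)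
  · have h1 : |max x y - max x' y'| ≤ e :=
      (abs_max_sub_max_le_max _ _ _ _).trans (max_le hx hy)
    have e1 : 2 * max x y - 2 * max x' y' = 2 * (max x y - max x' y') := by ring
    rw [e1, abs_mul, abs_of_pos (by norm_num : (0 : ℝ) < 2)]
    linarith
  · have h1 : |min x y - min x' y'| ≤ e :=
      (abs_min_sub_min_le_max _ _ _ _).trans (max_le hx hy)
    have e1 : 1 - 2 * min x y - (1 - 2 * min x' y') = -(2 * (min x y - min x' y')) := by ring
    rw [e1, abs_neg, abs_mul, abs_of_pos (by norm_num : (0 : ℝ) < 2)]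
    linarith

theorem lin_seq (t : ℕ → ℝ) (e : ℝ) (he : 0 ≤ e) (h1 : 0 ≤ t 1)
    (h1' : t 1 ≤ 1 / 2) (hev : ∀ m : ℕ, |t (2 * m) - FF (t m) (t m)| ≤ e)
    (hod : ∀ m : ℕ, |t (2 * m + 1) + t 1 - FF (t (m + 1)) (t m)| ≤ e) :
    ∀ m : ℕ, 2 ≤ m → |t m - dn (m * t 1)| ≤ (2 * m - 3) * e := by
  have hd1 : dn (t 1) = t 1 := by
    rw [DN_half (by rw [abs_of_nonneg h1]; exact h1'), abs_of_nonneg h1]
  have hd0 : dn 0 = 0 := by
    rw [DN_half (by rw [abs_zero]; norm_num), abs_zero]
  have lawE : ∀ m : ℕ, dn ((2 * m : ℕ) * t 1) = FF (dn (m * t 1)) (dn (m * t 1)) := by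
    intro m
    have := dn_law (m * t 1) (m * t 1)
    rw [sub_self, hd0, add_zero] at this
    unfold FF
    rw [← this]
    congr 1
    push_cast
    ring
  have lawO : ∀ m : ℕ, dn ((2 * m + 1 : ℕ) * t 1) + t 1 =
      FF (dn ((m + 1 : ℕ) * t 1)) (dn (m * t 1)) := by
    intro m
    have := dn_law ((m + 1 : ℕ) * t 1) (m * t 1)
    have e1 : ((m + 1 : ℕ) : ℝ) * t 1 - m * t 1 = t 1 := by push_cast; ring
    rw [e1, hd1] at this
    unfold FF
    rw [← this]
    congr 2
    push_cast
    ring
  have base1 : |t 1 - dn ((1 : ℕ) * t 1)| ≤ 0 := by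
    rw [Nat.cast_one, one_mul, hd1, sub_self, abs_zero]
  intro m
  induction m using Nat.strong_induction_on with
  | _ m ih =>
    intro hm
    rcases Nat.even_or_odd' m with ⟨k, hk | hk⟩
    · -- even
      rw [hk, lawE k]
      have b1 : |t k - dn (k * t 1)| ≤ (2 * k - 2) * e := by
        rcases Nat.lt_or_ge k 2 with h | h
        · have : k = 1 := by omega
          rw [this]
          refine base1.trans ?_
          push_cast
          linarith
        · refine (ih k (by omega) h).trans ?_
          apply mul_le_mul_of_nonneg_right _ he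
          linarith
      have b2 := FF_lip b1 b1
      have b3 := hev k
      have b4 : t (2 * k) - FF (dn (k * t 1)) (dn (k * t 1)) =
          (t (2 * k) - FF (t k) (t k)) + (FF (t k) (t k) - FF (dn (k * t 1)) (dn (k * t 1))) := by
        ring
      rw [b4]
      refine (abs_add_le _ _).trans ?_
      push_cast
      linarith
    · -- odd
      have hk1 : 1 ≤ k := by omega
      have b1 : |t (k + 1) - dn ((k + 1 : ℕ) * t 1)| ≤ (2 * k - 1) * e := by
        refine (ih (k + 1) (by omega) (by omega)).trans (le_of_eq ?_)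
        push_cast
        ring
      have b1' : |t k - dn (k * t 1)| ≤ (2 * k - 1) * e := by
        rcases Nat.lt_or_ge k 2 with h | h
        · have : k = 1 := by omega
          rw [this]
          refine base1.trans ?_
          push_cast
          linarith
        · refine (ih k (by omega) h).trans ?_
          apply mul_le_mul_of_nonneg_right _ he
          linarith
      have b2 := FF_lip b1 b1'
      have b3 := hod k
      have b4 : t (2 * k + 1) - dn ((2 * k + 1 : ℕ) * t 1) =
          (t (2 * k + 1) + t 1 - FF (t (k + 1)) (t k)) +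
            (FF (t (k + 1)) (t k) - FF (dn ((k + 1 : ℕ) * t 1)) (dn (k * t 1))) := by
        have := lawO k
        linarith
      rw [hk, b4]
      refine (abs_add_le _ _).trans ((add_le_add b3 b2).trans (le_of_eq ?_))
      push_cast
      ring

variable {K : Type*} [Field K] [DecidableEq K] {W : WeierstrassCurve.Affine K} [W.IsElliptic]

/-- Component coordinates of the multiples, archimedean, linear error. -/
theorem tv_lin {v : AbsoluteValue K ℝ} (v2 : v 2 = 2) (v3 : v 3 = 3) (h : IsAM W v)
    (P : W.Point) {m : ℕ} (hm : 2 ≤ m) :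
    |tv W v (m • P) - dn (m * tv W v P)| ≤ 2 * m * (Real.log (10 ^ 30) / nj W v) := by
  have hΔ : W.Δ ≠ 0 := W.isUnit_Δ.ne_zero
  have hb := tv_bounds h.mul hΔ P
  have hL : 0 ≤ Real.log (10 ^ 30) := Real.log_nonneg (by norm_num)
  have hn := nj_pos h.mul
  have he : 0 ≤ Real.log (10 ^ 30) / nj W v := div_nonneg hL hn.le
  have key := lin_seq (fun m : ℕ => tv W v (m • P)) (Real.log (10 ^ 30) / nj W v) he
    (by simpa only [one_nsmul] using hb.1) (by simpa only [one_nsmul] using hb.2)
    (fun m => by
      have := tv_alaw v2 v3 h (m • P) (m • P)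
      rw [sub_self, tv_zero h.mul hΔ, add_zero] at this
      have e1 : m • P + m • P = (2 * m) • P := by rw [← add_nsmul, two_mul]
      rw [e1] at this
      exact this)
    (fun m => by
      have := tv_alaw v2 v3 h ((m + 1) • P) (m • P)
      have e1 : (m + 1) • P + m • P = (2 * m + 1) • P := by
        rw [← add_nsmul]
        congr 1
        omega
      have e2 : (m + 1) • P - m • P = P := by rw [succ_nsmul, add_sub_cancel_left]
      rw [e1, e2] at this
      simp only [one_nsmul]
      exact this) m hm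
  simp only [one_nsmul] at key
  refine key.trans ?_
  apply mul_le_mul_of_nonneg_right _ he
  linarith

theorem tv_lin_B2 {v : AbsoluteValue K ℝ} (v2 : v 2 = 2) (v3 : v 3 = 3) (h : IsAM W v)
    (P : W.Point) {m : ℕ} (hm : 2 ≤ m) :
    nj W v * B2 (m * tv W v P) - 2 * m * Real.log (10 ^ 30) ≤
      nj W v * (1 / 6 - tv W v (m • P) * (1 - tv W v (m • P))) := by
  have hΔ : W.Δ ≠ 0 := W.isUnit_Δ.ne_zero
  have hn := nj_pos h.mul
  have h1 := tv_lin v2 v3 h P hm
  have hb := tv_bounds h.mul hΔ (m • P)
  have hd0 : 0 ≤ dn (m * tv W v P) := abs_nonneg _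
  have hd1 : dn (m * tv W v P) ≤ 1 / 2 := abs_sub_round _
  have h2 := quad_lip hb.1 hb.2 hd0 hd1
  have h3 := mul_le_mul_of_nonneg_left h1 hn.le
  have h4 : nj W v * (2 * m * (Real.log (10 ^ 30) / nj W v)) = 2 * m * Real.log (10 ^ 30) := by
    field_simp
  rw [h4] at h3
  have h5 := mul_le_mul_of_nonneg_left h2 hn.le
  rw [dn_B2]
  rw [mul_sub] at h5
  have e1 := mul_sub (nj W v) (1 / 6) (dn (m * tv W v P) * (1 - dn (m * tv W v P)))
  have e2 := mul_sub (nj W v) (1 / 6) (tv W v (m • P) * (1 - tv W v (m • P)))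
  rw [e1, e2]
  generalize nj W v * (tv W v (m • P) * (1 - tv W v (m • P))) = x1 at *
  generalize nj W v * (dn (m * tv W v P) * (1 - dn (m * tv W v P))) = x2 at *
  generalize nj W v * |tv W v (m • P) - dn (m * tv W v P)| = x3 at *
  generalize 2 * (m : ℝ) * Real.log (10 ^ 30) = x4 at *
  generalize nj W v * (1 / 6) = x5 at *
  linarith

end Pool.Agent.Helper86.LP
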