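import Pool.Agent.Helper86.LP.Lin
import Pool.Agent.Helper86.LO.Fin

/-!
The inequality with all places and a polynomial error.
-/

open Height AdmissibleAbsValues Filter Topology

namespace Pool.Agent.Helper86.LP

open WeierstrassCurve WeierstrassCurve.Affine WeierstrassCurve.Affine.Point NumberField
open Pool.Agent.Helper86.LH Pool.Agent.Helper86.LK Pool.Agent.Helper86.LM
open Pool.Agent.Helper86.LN Pool.Agent.Helper86.LO

variable {K : Type*} [Field K] [NumberField K] [DecidableEq K]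
  (W : WeierstrassCurve.Affine K) [W.IsElliptic]

/-- The inequality for the multiples of `12 P`, linear error. -/
theorem mult_ineq4 {S : Finset (NV K)} (hS : Big W S) (P : W.Point)
    (hP : ∀ n : ℕ, 0 < n → n • P ≠ 0) {H : W.Point → ℝ}
    (hH : ∀ P : W.Point, Tendsto (fun k : ℕ => logHeight ((2 ^ k • P).xRep) / 4 ^ k)
        atTop (𝓝 (H P))) (hHm : ∀ (P : W.Point) (m : ℕ), H (m • P) = m ^ 2 * H P)
    {M : ℕ} {m : ℕ} (hm : m ∈ Finset.Icc 1 M) :
    ∑ x ∈ (Finset.univ : Finset (InfinitePlace K)).disjSum S, TT W x * B2 (m * (12 * TH W P x)) +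
      1 / 6 * addH W - (65 + 1680 * M) * totalWeight K ≤
      (m : ℝ) ^ 2 * (144 * H P) := by
  classical
  have hm1 := (Finset.mem_Icc.mp hm).1
  have hmM := (Finset.mem_Icc.mp hm).2
  have hm12 : 0 < 12 * m := by omega
  have h6 : (6 : K) ≠ 0 := by norm_num
  have e12 : (12 * m) • P = 12 • (m • P) := by rw [mul_comm, mul_nsmul]
  have hne : (12 * m) • P ≠ 0 := hP _ hm12
  have h1 := aheight_lower2 h6 arch_two_three hS ((12 * m) • P) hne
    (hH ((12 * m) • P)) (fun v => ga W v.val) (fun v hv => by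
      have hx1 : ((12 * m) • P).xRep 1 = 1 := by
        generalize (12 * m) • P = Q at hne
        match Q, hne with
        | Point.some x y hxy, _ => rfl
        | 0, hP => exact absurd rfl hP
      unfold ga
      split_ifs with hv6
      · obtain ⟨p, hp, d⟩ := fin_disc (⟨v.val, v.2⟩ : FinitePlace K) hv6
        have := gain d hp rfl (m • P) (by rw [← e12]; exact hne)
        rw [← e12] at this
        exact this
      · rw [mul_zero, add_zero, hx1]
        exact loc_base v.val _)
  rw [hHm P (12 * m), ← addH_eq W hS] at h1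
  have hL : Real.log (10 ^ 30) ≤ 70 := by
    have := log_ten_lt
    rw [Real.log_pow]
    push_cast
    linarith
  have hB : ∀ t : ℝ, ((12 * m : ℕ) : ℝ) * t = m * (12 * t) := by
    intro t; push_cast; ring
  have hmM' : (m : ℝ) ≤ M := by exact_mod_cast hmM
  have hm0 : (0 : ℝ) ≤ m := Nat.cast_nonneg _
  have h2 : asum K (fun v => (if IsAM W v then nj W v else 0) * B2 (m * (12 * tv W v P)) -
      1680 * M) ≤ asum K (fun v => if IsAM W v then
        nj W v * (1 / 6 - tv W v ((12 * m) • P) * (1 - tv W v ((12 * m) • P))) else 0) := by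
    apply asum_le
    intro v hv
    have h23 := arch_two_three v hv
    split_ifs with hmv
    · have h3 := tv_lin_B2 h23.1 h23.2 hmv P (m := 12 * m) (by omega)
      rw [hB] at h3
      have h5 : 2 * ((12 * m : ℕ) : ℝ) * Real.log (10 ^ 30) ≤ 1680 * M := by
        push_cast
        have := mul_le_mul_of_nonneg_left hL (by positivity : (0 : ℝ) ≤ 2 * (12 * m))
        linarith
      exact le_trans (sub_le_sub_left h5 _) h3
    · rw [zero_mul]
      have : (0 : ℝ) ≤ M := Nat.cast_nonneg _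
      linarith
  rw [asum_sub, asum_const] at h2
  have h3 : ∑ x ∈ (Finset.univ : Finset (InfinitePlace K)).disjSum S,
      TT W x * B2 (m * (12 * TH W P x)) =
      asum K (fun v => (if IsAM W v then nj W v else 0) * B2 (m * (12 * tv W v P))) +
      ∑ v ∈ S, (if IsMul W v.val then nj W v.val *
        (1 / 6 - tv W v.val ((12 * m) • P) * (1 - tv W v.val ((12 * m) • P))) else 0) := by
    rw [Finset.sum_disjSum, asum_eq]
    congr 1
    · apply Finset.sum_congr rfl
      intro v _
      unfold TT TH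
      dsimp only
      rw [mul_assoc]
    · apply Finset.sum_congr rfl
      intro v _
      unfold TT TH
      dsimp only
      split_ifs with hmv
      · rw [tv_mul (isNonarchimedean v.val v.2) hmv P (12 * m), hB, dn_B2]
      · ring
  have h7 : ((12 * m : ℕ) : ℝ) ^ 2 * H P = (m : ℝ) ^ 2 * (144 * H P) := by
    push_cast; ring
  rw [h7] at h1
  rw [h3]
  linarith

/-- The three cases, polynomial error. -/
theorem all_main4 {δ : ℝ} (hδ0 : 0 < δ) (hδ1 : δ ≤ 1) {S : Finset (NV K)} (hS : Big W S)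
    (P : W.Point) (hP : ∀ n : ℕ, 0 < n → n • P ≠ 0) {H : W.Point → ℝ}
    (hH : ∀ P : W.Point, Tendsto (fun k : ℕ => logHeight ((2 ^ k • P).xRep) / 4 ^ k)
        atTop (𝓝 (H P))) (hHm : ∀ (P : W.Point) (m : ℕ), H (m • P) = m ^ 2 * H P)
    (hH0 : ∀ P : W.Point, 0 ≤ H P)
    (hw : (∃ I ⊆ (Finset.univ : Finset (InfinitePlace K)).disjSum S, ∃ ψ : ℝ,
        (∀ x ∈ I, 12 * TH W P x = ψ) ∧ δ * logHeight₁ W.j ≤ ∑ x ∈ I, TT W x) ∨
        δ * logHeight₁ W.j ≤ 94 * totalWeight K ∨
        δ * logHeight₁ W.j ≤ addH W) :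
    δ ^ 3 * (logHeight₁ W.j + addH W) / 450000 - 5.9 * δ * totalWeight K ≤
      H P := by
  classical
  obtain ⟨M, hM, hM1, hM2⟩ := exists_M hδ0 hδ1
  have hT := TT_sum W hS
  have h5 : (0 : ℝ) ≤ totalWeight K := Nat.cast_nonneg _
  set T := ∑ x ∈ (Finset.univ : Finset (InfinitePlace K)).disjSum S, TT W x with hTdef
  set E := (65 + 1680 * (M : ℝ)) * totalWeight K with hE
  set G := addH W with hG
  have hG0 : 0 ≤ G := by
    rw [hG, addH_eq W hS]
    exact Finset.sum_nonneg fun v _ => ga_nonneg W v.val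
  have hE0 : 0 ≤ E := by positivity
  have hT0 : 0 ≤ T := Finset.sum_nonneg fun y _ => TT_nonneg W y
  have hH144 : 0 ≤ 144 * H P := by have := hH0 P; linarith
  have key : ∀ I ⊆ (Finset.univ : Finset (InfinitePlace K)).disjSum S, ∀ ψ : ℝ,
      (∀ v ∈ I, 12 * TH W P v = ψ) →
      M / (2 * Real.pi ^ 2) * ∑ v ∈ I, TT W v - 1 / 3 * T + (M - 2) * (1 / 6 * G) -
        2 * M * E ≤ 144 * H P * (M : ℝ) ^ 3 / 3 := fun I hI ψ hψ =>
    weighted2 ((Finset.univ : Finset (InfinitePlace K)).disjSum S) (TT W)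
      (fun x => 12 * TH W P x) (fun y _ => TT_nonneg W y) I hI ψ hψ (144 * H P) E (1 / 6 * G)
      hH144 hE0 (by positivity) M hM (fun m hm => mult_ineq4 W hS P hP hH hHm hm)
  have key0 : -(1 / 3 * T) + (M - 2) * (1 / 6 * G) - 2 * M * E ≤
      144 * H P * (M : ℝ) ^ 3 / 3 := by
    have := key ∅ (Finset.empty_subset _) 0 (fun v hv => absurd hv (Finset.notMem_empty v))
    rw [Finset.sum_empty, mul_zero, zero_sub] at this
    exact this
  have hM14 : (14 : ℝ) ≤ M := by
    refine le_trans ?_ hM1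
    rw [le_div_iff₀ hδ0]
    linarith
  have b2 : 14 ≤ M * δ := by
    have := mul_le_mul_of_nonneg_right hM1 hδ0.le
    rwa [div_mul_cancel₀ _ hδ0.ne'] at this
  have hδT : δ * T ≤ δ * logHeight₁ W.j := mul_le_mul_of_nonneg_left hT.2 hδ0.le
  have b5 : 14 * T ≤ M * δ * T := mul_le_mul_of_nonneg_right b2 hT0
  have a1' : 11 / 30 * G ≤ (M - 2) * (1 / 6 * G) := by nlinarith
  have hMt : 0 ≤ M * (totalWeight K : ℝ) := by positivity
  have fin : 11 / 30 * (T + G) - 2 * M * (E + 5 * totalWeight K) ≤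
      144 * H P * (M : ℝ) ^ 3 / 3 := by
    rcases hw with ⟨I, hI, ψ, hψ, hw⟩ | hw | hw
    · have k1 := key I hI ψ hψ
      have hpi : Real.pi ^ 2 < 9.87 := by
        have h1 := Real.pi_lt_d4
        have h2 := Real.pi_pos
        nlinarith
      have hpi0 : 0 < Real.pi ^ 2 := by positivity
      have a1 : 0.7 * T ≤ M / (2 * Real.pi ^ 2) * ∑ x ∈ I, TT W x := by
        have b1 : M / (2 * Real.pi ^ 2) * (δ * T) ≤ M / (2 * Real.pi ^ 2) * ∑ x ∈ I, TT W x :=
          mul_le_mul_of_nonneg_left (hδT.trans hw) (by positivity)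
        have b3 : 0.7 ≤ M * δ / (2 * Real.pi ^ 2) := by
          rw [le_div_iff₀ (by positivity)]
          nlinarith
        have b4 : M / (2 * Real.pi ^ 2) * (δ * T) = M * δ / (2 * Real.pi ^ 2) * T := by ring
        rw [b4] at b1
        have b5 := mul_le_mul_of_nonneg_right b3 hT0
        linarith
      norm_num at a1
      linarith
    · have b6 : M * δ * T ≤ M * (94 * totalWeight K) := by
        rw [mul_assoc]
        exact mul_le_mul_of_nonneg_left (hδT.trans hw) (by linarith)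
      linarith
    · have c1 : 12 * T ≤ (M - 2) * δ * T := by
        have : 12 ≤ (M - 2) * δ := by linarith
        exact mul_le_mul_of_nonneg_right this hT0
      have c2 : (M - 2) * (δ * T) ≤ (M - 2) * G :=
        mul_le_mul_of_nonneg_left (hδT.trans hw) (by linarith)
      have c3 : 12 * G ≤ (M - 2) * G := by nlinarith
      linarith
  have k := opt_coreF hδ0 hδ1 hT0 (by positivity) hG0 hM1 hM2 fin
  have hd3 : δ ^ 3 ≤ δ := by
    have : δ ^ 2 ≤ 1 := pow_le_one₀ hδ0.le hδ1
    calc δ ^ 3 = δ ^ 2 * δ := by ring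
      _ ≤ 1 * δ := mul_le_mul_of_nonneg_right this hδ0.le
      _ = δ := one_mul _
  have hd3' : 0 < δ ^ 3 := by positivity
  have a1 : δ ^ 3 * (logHeight₁ W.j + G) ≤ δ ^ 3 * (T + G) + 47 * (δ * totalWeight K) := by
    have b1 : logHeight₁ W.j + G ≤ (T + G) + 47 * totalWeight K := by linarith [hT.1]
    have b2 := mul_le_mul_of_nonneg_left b1 hd3'.le
    have b3 : δ ^ 3 * (47 * (totalWeight K : ℝ)) ≤ δ * (47 * totalWeight K) :=
      mul_le_mul_of_nonneg_right hd3 (by positivity)
    linarith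
  have e1 : δ ^ 2 * (E + 5 * totalWeight K) ≤ 25300 * (δ * totalWeight K) := by
    have f1 : E + 5 * totalWeight K ≤ 1685 * M * totalWeight K + 0 := by
      rw [hE]
      nlinarith
    have f2 : δ * M ≤ 15 := by
      have := mul_le_mul_of_nonneg_left hM2 hδ0.le
      rwa [mul_div_cancel₀ _ hδ0.ne'] at this
    have f3 := mul_le_mul_of_nonneg_left f1 (by positivity : 0 ≤ δ ^ 2)
    have f4 : δ ^ 2 * (1685 * M * (totalWeight K : ℝ) + 0) =
        1685 * (δ * M) * (δ * totalWeight K) := by ring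
    have f5 : 0 ≤ δ * (totalWeight K : ℝ) := mul_nonneg hδ0.le h5
    rw [f4] at f3
    nlinarith
  have f5 : 0 ≤ δ * (totalWeight K : ℝ) := mul_nonneg hδ0.le h5
  have e2 : 5.9 * δ * (totalWeight K : ℝ) = 5.9 * (δ * totalWeight K) := by ring
  rw [e2]
  norm_num
  linarith

theorem rel5 {δ : ℝ} (hδ0 : 0 < δ) (hδ1 : δ ≤ 1) (P : W.Point)
    (hP : ∀ n : ℕ, 0 < n → n • P ≠ 0) {H : W.Point → ℝ}
    (hH : ∀ P : W.Point, Tendsto (fun k : ℕ => logHeight ((2 ^ k • P).xRep) / 4 ^ k)
        atTop (𝓝 (H P))) (hHm : ∀ (P : W.Point) (m : ℕ), H (m • P) = m ^ 2 * H P)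
    (hH0 : ∀ P : W.Point, 0 ≤ H P) {s N r : ℕ} (hr : r = s + N * (N + 1)) (hr0 : 0 < r)
    (hw : (∃ (A : Finset (InfinitePlace K)) (B : Finset (NV K)), A.card + B.card ≤ s ∧
        δ * logHeight₁ W.j ≤ part W A B N) ∨
      hfin W + δ * logHeight₁ W.j + 44 * totalWeight K ≤ dmin W) :
    (δ / (2 * r)) ^ 3 * (dmin W + hinf W) / 450000 -
      6 * (δ / (2 * r)) * totalWeight K ≤ H P := by
  classical
  have hΔ : W.Δ ≠ 0 := W.isUnit_Δ.ne_zero
  have h6 : (6 : K) ≠ 0 := by norm_num
  obtain ⟨S, hS⟩ := exists_big (W := W) hΔ h6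
  have hd := dmin_le W hS
  have hJ := hj_eq W
  have hJ0 : 0 ≤ logHeight₁ W.j := zero_le_logHeight₁ _
  have hr1 : (1 : ℝ) ≤ r := by exact_mod_cast hr0
  have hr2 : (0 : ℝ) < 2 * r := by linarith
  obtain ⟨ε, hε⟩ : ∃ ε : ℝ, ε = δ / (2 * r) := ⟨_, rfl⟩
  rw [← hε]
  have hε0 : 0 < ε := by rw [hε]; positivity
  have hεδ : ε ≤ δ := by
    rw [hε, div_le_iff₀ hr2]
    nlinarith
  have hε1 : ε ≤ 1 := hεδ.trans hδ1
  have hεJ : ε * logHeight₁ W.j ≤ δ * logHeight₁ W.j := mul_le_mul_of_nonneg_right hεδ hJ0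
  have h5 : (0 : ℝ) ≤ totalWeight K := Nat.cast_nonneg _
  have key : ε ^ 3 * (logHeight₁ W.j + addH W) / 450000 -
      5.9 * ε * totalWeight K ≤ H P := by
    refine all_main4 W hε0 hε1 hS P hP hH hHm hH0 ?_
    rcases hw with ⟨A, B, hAB, hw⟩ | hw
    swap
    · exact Or.inr (Or.inr (by linarith))
    by_cases hsm : δ * logHeight₁ W.j ≤ 94 * totalWeight K
    · exact Or.inr (Or.inl (hεJ.trans hsm))
    rw [not_le] at hsm
    refine Or.inl ?_
    set U2 := S.filter (fun v => IsMul W v.val ∧ (v ∈ B ∨ SmallPole W N v.val)) with hU2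
    set U := A.disjSum U2 with hU
    have hUS : U ⊆ (Finset.univ : Finset (InfinitePlace K)).disjSum S :=
      Finset.disjSum_mono (Finset.subset_univ _) (Finset.filter_subset _ _)
    have eU : ∑ x ∈ U, TT W x = ∑ w ∈ A, TT W (Sum.inl w) + ∑ v ∈ U2, TT W (Sum.inr v) := by
      rw [hU, Finset.sum_disjSum]
    have hmult : ∑ w : InfinitePlace K, (w.mult : ℝ) = totalWeight K := by
      have h1 := asum_const (K := K) 1
      rw [asum_eq] at h1
      simpa using h1
    have a1 : ∑ w ∈ A, (w.mult : ℝ) * Real.posLog (w W.j) ≤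
        ∑ w ∈ A, TT W (Sum.inl w) + 47 * totalWeight K := by
      have b1 : ∀ w ∈ A, (w.mult : ℝ) * Real.posLog (w W.j) ≤
          TT W (Sum.inl w) + 47 * w.mult := by
        intro w _
        have hwv : w W.j = w.val W.j := rfl
        have hm0 : (0 : ℝ) ≤ w.mult := Nat.cast_nonneg _
        unfold TT
        dsimp only
        split_ifs with hm
        · rw [nj_eq, hwv, Real.posLog_eq_log_max_one (w.val.nonneg _),
            max_eq_right ((isMul_iff W w.val).mp hm.mul).le]
          linarith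
        · have h1 := not_isAM hΔ hm
          have h2 : Real.posLog (w W.j) ≤ 47 := by
            rw [hwv, ← max_j W w.val]
            have h3 : Real.log (max 1 (w.val W.c₄ ^ 3 / w.val W.Δ)) ≤ 20 * Real.log 10 := by
              have e : 20 * Real.log 10 = Real.log (10 ^ 20) := by
                rw [Real.log_pow]; norm_num
              rw [e]
              apply Real.log_le_log (lt_of_lt_of_le one_pos (le_max_left _ _))
              exact max_le (by norm_num) h1
            have := log_ten_lt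
            linarith
          have := mul_le_mul_of_nonneg_left h2 hm0
          linarith
      refine (Finset.sum_le_sum b1).trans ?_
      rw [Finset.sum_add_distrib, ← Finset.mul_sum]
      have b2 : ∑ w ∈ A, (w.mult : ℝ) ≤ ∑ w : InfinitePlace K, (w.mult : ℝ) :=
        Finset.sum_le_sum_of_subset_of_nonneg (Finset.subset_univ _)
          (fun w _ _ => Nat.cast_nonneg _)
      rw [hmult] at b2
      linarith
    have a2 : ∑ᶠ v : NV K, (if v ∈ B ∨ SmallPole W N v.val then Real.posLog (v.val W.j) else 0) =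
        ∑ v ∈ U2, TT W (Sum.inr v) := by
      rw [finsum_eq_sum_of_support_subset (s := S)]
      · rw [hU2, Finset.sum_filter]
        apply Finset.sum_congr rfl
        intro v _
        unfold TT
        dsimp only
        by_cases hm : IsMul W v.val
        · rw [if_pos hm, ← nj_eq_posLog hm, nj]
          simp only [hm, true_and]
        · rw [posLog_of_not hm]
          simp [hm]
      · intro v hv
        by_contra hc
        apply hv
        dsimp only
        rw [posLog_of_not (hS.not_mul (fun h => hc (Finset.mem_coe.mpr h))), ite_self]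
    have a3 : δ * logHeight₁ W.j / 2 ≤ ∑ x ∈ U, TT W x := by
      unfold part at hw
      rw [a2] at hw
      rw [eU]
      linarith
    set Ex := A.disjSum (S.filter (fun v => v ∈ B)) with hEx
    have hExc : Ex.card ≤ s := by
      rw [hEx, Finset.card_disjSum]
      have : (S.filter (fun v => v ∈ B)).card ≤ B.card :=
        Finset.card_le_card (fun v hv => (Finset.mem_filter.mp hv).2)
      omega
    set Z := VV N ∪ Ex.image (fun x => 12 * TH W P x) with hZ
    have hZc : Z.card ≤ r := by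
      have h1 := Finset.card_union_le (VV N) (Ex.image (fun x => 12 * TH W P x))
      have h2 := VV_card N
      have h3 : (Ex.image (fun x => 12 * TH W P x)).card ≤ Ex.card := Finset.card_image_le
      rw [← hZ] at h1
      omega
    obtain ⟨I, hIU, ψ, hψ, hI⟩ := pigeon_share U (TT W) (fun x => 12 * TH W P x)
      (fun x _ => TT_nonneg W x) Z (by
        intro x hx
        rw [hZ, Finset.mem_union]
        rcases x with w | v
        · right
          rw [Finset.mem_image]
          refine ⟨Sum.inl w, ?_, rfl⟩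
          rw [hEx, Finset.inl_mem_disjSum]
          rwa [hU, Finset.inl_mem_disjSum] at hx
        · rw [hU, Finset.inr_mem_disjSum, hU2, Finset.mem_filter] at hx
          obtain ⟨hvS, hm, hv | hv⟩ := hx
          · right
            rw [Finset.mem_image]
            refine ⟨Sum.inr v, ?_, rfl⟩
            rw [hEx, Finset.inr_mem_disjSum, Finset.mem_filter]
            exact ⟨hvS, hv⟩
          · left
            exact tv_mem W hm hv P) a3 hZc hr0
    refine ⟨I, hIU.trans hUS, ψ, hψ, le_trans (le_of_eq ?_) hI⟩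
    rw [hε]
    field_simp
  have hd3 : ε ^ 3 ≤ ε := by
    have : ε ^ 2 ≤ 1 := pow_le_one₀ hε0.le hε1
    calc ε ^ 3 = ε ^ 2 * ε := by ring
      _ ≤ 1 * ε := mul_le_mul_of_nonneg_right this hε0.le
      _ = ε := one_mul _
  have hd3' : 0 < ε ^ 3 := by positivity
  have a1 : ε ^ 3 * (dmin W + hinf W) ≤ ε ^ 3 * (logHeight₁ W.j + addH W) +
      44 * (ε * totalWeight K) := by
    have b1 : dmin W + hinf W ≤ (logHeight₁ W.j + addH W) + 44 * totalWeight K := by linarith
    have b2 := mul_le_mul_of_nonneg_left b1 hd3'.le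
    have b3 : ε ^ 3 * (44 * (totalWeight K : ℝ)) ≤ ε * (44 * totalWeight K) :=
      mul_le_mul_of_nonneg_right hd3 (by positivity)
    linarith
  have f5 : 0 ≤ ε * (totalWeight K : ℝ) := mul_nonneg hε0.le h5
  have e2 : 5.9 * ε * (totalWeight K : ℝ) = 5.9 * (ε * totalWeight K) := by ring
  rw [e2] at key
  norm_num at key
  linarith

theorem rel6 {δ ε : ℝ} (hδ0 : 0 < δ) (hδ1 : δ ≤ 1) (P : W.Point)
    (hP : ∀ n : ℕ, 0 < n → n • P ≠ 0) {H : W.Point → ℝ}
    (hH : ∀ P : W.Point, Tendsto (fun k : ℕ => logHeight ((2 ^ k • P).xRep) / 4 ^ k)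
        atTop (𝓝 (H P))) (hHm : ∀ (P : W.Point) (m : ℕ), H (m • P) = m ^ 2 * H P)
    (hH0 : ∀ P : W.Point, 0 ≤ H P) {s N : ℕ} (hε : ε = δ / (8 * (s + N ^ 2 + N + 1)))
    (A : Finset (InfinitePlace K)) (B : Finset (NV K)) (hAB : A.card + B.card ≤ s)
    (hw : deepR W A B N ≤ (1 - δ) * (dmin W + hinf W)) :
    ε ^ 3 * (dmin W + hinf W) / 450000 - 6 * ε * totalWeight K ≤ H P := by
  have hs0 : (0 : ℝ) ≤ s := Nat.cast_nonneg _
  have hN0 : (0 : ℝ) ≤ N := Nat.cast_nonneg _
  have hN2 : (0 : ℝ) ≤ (N : ℝ) ^ 2 := sq_nonneg _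
  have hden : (0 : ℝ) < 8 * (s + N ^ 2 + N + 1) := by linarith
  have hε0 : 0 < ε := by rw [hε]; positivity
  have hεδ : ε ≤ δ := by
    rw [hε, div_le_iff₀ hden]
    nlinarith
  have hε1 : ε ≤ 1 := hεδ.trans hδ1
  have h5 : (0 : ℝ) ≤ totalWeight K := Nat.cast_nonneg _
  have hpd := part_add_deepR W A B N
  have hJ := hj_eq W
  have hJ0 : 0 ≤ logHeight₁ W.j := zero_le_logHeight₁ _
  have ha0 := hfin_le_dmin W
  have hδ4 : 0 < δ / 4 := by positivity
  have hδ41 : δ / 4 ≤ 1 := by linarith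
  have e1 : ε = (δ / 4) / (2 * ((s + 1 + N * (N + 1) : ℕ) : ℝ)) := by
    rw [hε]
    push_cast
    rw [div_div]
    congr 1
    ring
  have hr0 : 0 < s + 1 + N * (N + 1) := by omega
  by_cases h1 : δ / 4 * logHeight₁ W.j ≤ part W A B N
  · rw [e1]
    exact rel5 W hδ4 hδ41 P hP hH hHm hH0 (s := s + 1) rfl hr0 (Or.inl ⟨A, B, by omega, h1⟩)
  by_cases h2 : hfin W + δ / 4 * logHeight₁ W.j + 44 * totalWeight K ≤ dmin W
  · rw [e1]
    exact rel5 W hδ4 hδ41 P hP hH hHm hH0 (s := s + 1) rfl hr0 (Or.inr h2)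
  rw [not_le] at h1 h2
  -- the height of the curve is small
  set D := dmin W + hinf W with hD
  have h3 : δ * D ≤ part W A B N + (dmin W - hfin W) := by
    have : D = logHeight₁ W.j + (dmin W - hfin W) := by rw [hD, hJ]; ring
    nlinarith
  have h4 : δ * D = δ * logHeight₁ W.j + δ * (dmin W - hfin W) := by
    rw [hD, hJ]; ring
  have h5' : 0 ≤ δ * (dmin W - hfin W) := mul_nonneg hδ0.le (by linarith)
  have h6 : δ * logHeight₁ W.j ≤ 88 * totalWeight K := by linarith
  have h7 : δ * (dmin W - hfin W) ≤ 66 * totalWeight K := by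
    have h8 : dmin W - hfin W ≤ 66 * totalWeight K := by linarith
    nlinarith
  have h8 : δ * D ≤ 154 * totalWeight K := by linarith
  have hD0 : 0 ≤ D := by
    have : D = logHeight₁ W.j + (dmin W - hfin W) := by rw [hD, hJ]; ring
    rw [this]
    linarith
  have h9 : ε ^ 3 * D ≤ 154 * (ε * totalWeight K) := by
    have b1 : ε ^ 3 ≤ ε * δ := by
      have b2 : ε ^ 2 ≤ δ := by
        calc ε ^ 2 = ε * ε := by ring
          _ ≤ 1 * δ := mul_le_mul hε1 hεδ hε0.le zero_le_one
          _ = δ := one_mul _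
      calc ε ^ 3 = ε * ε ^ 2 := by ring
        _ ≤ ε * δ := mul_le_mul_of_nonneg_left b2 hε0.le
    have b3 := mul_le_mul_of_nonneg_right b1 hD0
    have b4 := mul_le_mul_of_nonneg_left h8 hε0.le
    have b5 : ε * δ * D = ε * (δ * D) := by ring
    have b6 : ε * (154 * (totalWeight K : ℝ)) = 154 * (ε * totalWeight K) := by ring
    rw [b5] at b3
    rw [b6] at b4
    linarith
  have f5 : 0 ≤ ε * (totalWeight K : ℝ) := mul_nonneg hε0.le h5
  have a6 : 6 * ε * (totalWeight K : ℝ) = 6 * (ε * totalWeight K) := by ring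
  rw [a6]
  have := hH0 P
  linarith

end Pool.Agent.Helper86.LP
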